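import Pool.Agent.Run7.h612.SY.RatMain

/-!
# When does an isotropic movable divisor induce a rational Lagrangian fibration?

Let `X` be a projective primitive symplectic variety of dimension `n = 2 r` (or a normal projective
variety with a nondegenerate Poisson bracket and a compatible Beauville–Bogomolov form `b` on
`Cl X ⊗ ℚ`), and let `L` be a divisor on `X`, not numerically trivial, with `b(L, L) = 0`, which is
movable, or more generally nonnegative on the prime divisors.

1. For some `m ≥ 1` the rational map `X ⇢ B` given by `|m L|` has connected fibres and is
   coisotropic (the functions on `B` commute under the Poisson bracket), and the functions on `B` are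
   exactly the rational functions `f` on `X` such that the polar divisor of `f` is orthogonal to `L`.
2. `L` induces a rational Lagrangian fibration if and only if there are `r` algebraically independent
   rational functions on `X` whose polar divisors are orthogonal to `L`.
3. `L` induces a rational Lagrangian fibration if and only if for every coisotropic fibration `X ⇢ C`
   with `dim C < r` the numbers `h⁰ (X', m π^* L) / (deg (C' / C) m ^ dim C)` are unbounded, for all
   coverings `π : X' → X` and all `m ≥ 1`, where `X' ⇢ C' → C` is the Stein factorization.

`NormalModel` and `IsPrimeDivisor` are defined in `Pool.Agent.Y172.Defs`, `localRing` and `Through` in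
`Pool.Agent.R887.Defs`, `LiesOver` in `Pool.Agent.Y172.Defs`, `baseDegree` and `IsFibration` in
`Run7.h612.AB.Defs`, `cls` in `Pool.Agent.N110.NV.Defs`, `IsBBForm` in `Pool.Agent.Run7.h701.HK.Defs`,
`polar` in `Pool.Agent.Run7.h701.HK.Par`, the other definitions in `Run7.h612.SY`.
-/

set_option autoImplicit false

open FF Pool.Agent.Y172 Pool.Agent.N110 Pool.Agent.Run7.h701 Run7.h612.SY

/-- Let `X` be a normal projective variety of dimension `n = 2 r ≥ 2` with generic point `y`, `br` a
nondegenerate Poisson bracket on `X`, `b` a compatible Beauville–Bogomolov form on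
`Cl X ⊗ ℚ = ℚ ^ ρ` and `L` a divisor on `X` with nonzero class and `b(L, L) = 0` which is nonnegative
on the prime divisors (for instance a movable divisor). Then for some `m` the map given by `|m L|` is
a coisotropic fibration, and its functions are those with polar divisor orthogonal to `L`; and `L`
induces a rational Lagrangian fibration if and only if there are `r` independent such functions, if
and only if the numbers of sections of `L` on the coverings of `X` grow over all coisotropic
fibrations with a base of dimension less than `r`. -/
theorem Pool.Agent.Results.MP_e4ecdb_ag.RationalLagrangian.result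
    {K : Type} [Field K] [Algebra ℂ K] {N ρ n r : ℕ} {y : Fin (N + 1) → K} (hy : NormalModel y)
    (hn : Algebra.trdeg ℂ K = n) (hr : 1 ≤ r) (hnr : n = 2 * r) {br : K → K → K}
    (hbr : IsPoisson y br) (hnd : Nondegenerate n br)
    {c : Place ℂ K → Fin ρ → ℚ} {b : LinearMap.BilinForm ℚ (Fin ρ → ℚ)}
    (hb : IsSymplecticForm y n br c b) {L : Place ℂ K → ℚ} (hL : IsDivisor y L)
    (hmov : ∀ P, IsPrimeDivisor y P → 0 ≤ b (cls y c L) (c P)) (hne : cls y c L ≠ 0)
    (hq : b (cls y c L) (cls y c L) = 0) :
    (∃ m : ℕ, 1 ≤ m ∧ IsCoisotropicFibration br (mapField y L m) ∧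
      ∀ f : K, f ∈ mapField y L m ↔ b (cls y c L) (cls y c (HK.polar f)) = 0) ∧
    (InducesLagrangian n br y L ↔ ∃ f : Fin r → K, AlgebraicIndependent ℂ f ∧
      ∀ i, b (cls y c L) (cls y c (HK.polar (f i))) = 0) ∧
    (InducesLagrangian n br y L ↔ CoisotropicGrowth br y L r) :=
  ⟨exists_fibration hy hn hbr hb hL hmov hne hq,
    (induces_iff hy hn hbr hnd hb hL hmov hne hq hr hnr).trans
      (iitaka_iff_orth hy hb.form hL hmov hne hq hr),
    (induces_iff hy hn hbr hnd hb hL hmov hne hq hr hnr).trans
      (criterionC hy hn hbr hb hL hr (by omega))⟩
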