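import Pool.Agent.Run7.h372.SY.D

set_option autoImplicit false

/-!
# A nontrivial movable line bundle with `q_X(L) = 0` no power of which defines a rational fibration

The primitive symplectic variety is a quotient `X = ℂ^4 / Γ` of a complex torus by a group with
linear part the dihedral group of order eight; the line bundle is torsion of order two.
-/

namespace Pool.Agent.Results.MP_e4ecdb_ag.TorsionBundle

open Pool.Agent.W594.SYZ2

/-- There are a primitive symplectic torus quotient `X = ℂ^4 / Γ` of dimension four and a line bundle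
`L ≇ O_X` on `X` with `L^2 ≅ O_X` and `c_1(L) = 0`, so it is nef, movable and `q_X(L) = 0`, such that
for every `k` any two sections of `L^k` are proportional; so no linear system `|L^k|` defines a map to
a variety of positive dimension. -/
theorem result : ∃ (Γ : Subgroup ((Fin 4 → ℂ) ≃ᵃ[ℂ] (Fin 4 → ℂ))) (L : LineBundle Γ),
    IsPrimitiveSymplectic Γ ∧ ¬ L.IsTrivial ∧ (L.pow 2).IsTrivial ∧
    IsChernForm L 0 ∧ IsNefForm (0 : (Fin 4 → ℂ) → (Fin 4 → ℂ) → ℂ) ∧
    IsDegenerateForm (0 : (Fin 4 → ℂ) → (Fin 4 → ℂ) → ℂ) ∧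
    ∀ (k : ℕ) (s₁ s₂ : (Fin 4 → ℂ) → ℂ), (L.pow k).IsSection s₁ → (L.pow k).IsSection s₂ →
      ∃ a b : ℂ, (a, b) ≠ 0 ∧ ∀ v, a * s₁ v = b * s₂ v :=
  ⟨Run7.h372.SY.Γ, Run7.h372.SY.L, Run7.h372.SY.prim, Run7.h372.SY.not_trivial,
    Run7.h372.SY.L_sq, Run7.h372.SY.L_chern, Run7.h372.SY.L_nef, Run7.h372.SY.L_deg,
    fun k s₁ s₂ h₁ h₂ => Run7.h372.SY.sections_prop Run7.h372.SY.torus _ 2 (by norm_num)
      Run7.h372.SY.L_sq k s₁ s₂ h₁ h₂⟩

end Pool.Agent.Results.MP_e4ecdb_ag.TorsionBundle
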